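import Pool.Agent.Lib.MP_28303a_al.HIG.Iface
import Pool.Agent.Lib.MP_28303a_al.NK.H12.Hnntf
import Pool.Agent.Lib.MP_28303a_al.NK.H12.Emb
import Mathlib.GroupTheory.FreeGroup.CyclicallyReduced

set_option autoImplicit false

/-! # The group `GU` is an HNN extension -/

namespace Pool.Agent.NegK.Hig.H64G

open HNNExtension Pool.Agent.NegK Pool.Agent.NegK.Hig

theorem pIso_apply {C K : Type} [Group C] [Group K] {α β : C →* K}
    (hα : Function.Injective α) (hβ : Function.Injective β) (c : C) :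
    ((pIso hα hβ ⟨α c, ⟨c, rfl⟩⟩ : β.range) : K) = β c := by
  have h1 : (MonoidHom.ofInjective hα) c = ⟨α c, ⟨c, rfl⟩⟩ := rfl
  unfold pIso
  rw [MulEquiv.trans_apply, ← h1, MulEquiv.symm_apply_apply]
  rfl

theorem hnn_rel {C K : Type} [Group C] [Group K] {α β : C →* K}
    (hα : Function.Injective α) (hβ : Function.Injective β) (c : C) :
    (t : Hnn hα hβ) * of (α c) = of (β c) * t := by
  have h := t_mul_of (φ := pIso hα hβ) ⟨α c, ⟨c, rfl⟩⟩
  rw [pIso_apply hα hβ c] at h
  exact h

/-- The word `x⁻ⁿ y xⁿ`. -/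
def cw {G : Type} [Group G] (x y : G) (n : ℕ) : G := x⁻¹ ^ n * y * x ^ n

theorem cw_map {G H : Type} [Group G] [Group H] (f : G →* H) (x y : G) (n : ℕ) :
    f (cw x y n) = cw (f x) (f y) n := by
  simp [cw]

theorem cw_inj {a b : F2} (h : ∃ ρ : F2 →* FreeGroup Bool, ρ a = (FreeGroup.of true)⁻¹ ∧
    ρ b = FreeGroup.of false) : Function.Injective (FreeGroup.lift (cw a b)) := by
  obtain ⟨ρ, h1, h2⟩ := h
  have e : ρ.comp (FreeGroup.lift (cw a b)) =
      FreeGroup.lift (H12.cj (FreeGroup.of true) (FreeGroup.of false)) := by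
    refine FreeGroup.ext_hom _ _ fun n => ?_
    rw [MonoidHom.comp_apply, FreeGroup.lift_apply_of, FreeGroup.lift_apply_of, cw_map, h1, h2]
    simp [cw, H12.cj]
  have h3 := H12.inj_cj
  rw [← e, MonoidHom.coe_comp] at h3
  exact Function.Injective.of_comp h3

/-- The letter `x` of the second factor. -/
abbrev X : F2 := FreeGroup.of 0

/-- The letter `y` of the second factor. -/
abbrev Y : F2 := FreeGroup.of 1

/-- The sequence of the generators. -/
def gs : ℕ → UT
  | 0 => 1
  | n + 1 => QuotientGroup.mk (FreeGroup.of (Denumerable.ofNat (Tab × ℕ) n))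

theorem gs_enc (T : Tab) (i : ℕ) :
    gs (Encodable.encode (T, i) + 1) = QuotientGroup.mk (FreeGroup.of (T, i)) := by
  show (QuotientGroup.mk (FreeGroup.of (Denumerable.ofNat (Tab × ℕ) (Encodable.encode (T, i)))) :
    UT) = _
  have h : Denumerable.ofNat (Tab × ℕ) (Encodable.encode (T, i)) = (T, i) :=
    Denumerable.ofNat_encode (T, i)
  rw [h]

/-- The source. -/
def al : FreeGroup ℕ →* UT × F2 := FreeGroup.lift fun n => (1, cw X Y n)

/-- The target. -/
def be : FreeGroup ℕ →* UT × F2 := FreeGroup.lift fun n => (gs n, cw Y X n)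

theorem al_of (n : ℕ) : al (FreeGroup.of n) = (1, cw X Y n) := FreeGroup.lift_apply_of

theorem be_of (n : ℕ) : be (FreeGroup.of n) = (gs n, cw Y X n) := FreeGroup.lift_apply_of

theorem al_inj : Function.Injective al := by
  have e : (MonoidHom.snd UT F2).comp al = FreeGroup.lift (cw X Y) := by
    refine FreeGroup.ext_hom _ _ fun n => ?_
    rw [MonoidHom.comp_apply, al_of, FreeGroup.lift_apply_of]
    rfl
  have h := cw_inj (a := X) (b := Y) ⟨FreeGroup.lift ![(FreeGroup.of true)⁻¹, FreeGroup.of false],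
    by simp [X], by simp [Y]⟩
  rw [← e, MonoidHom.coe_comp] at h
  exact Function.Injective.of_comp h

theorem be_inj : Function.Injective be := by
  have e : (MonoidHom.snd UT F2).comp be = FreeGroup.lift (cw Y X) := by
    refine FreeGroup.ext_hom _ _ fun n => ?_
    rw [MonoidHom.comp_apply, be_of, FreeGroup.lift_apply_of]
    rfl
  have h := cw_inj (a := Y) (b := X) ⟨FreeGroup.lift ![FreeGroup.of false, (FreeGroup.of true)⁻¹],
    by simp [Y], by simp [X]⟩
  rw [← e, MonoidHom.coe_comp] at h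
  exact Function.Injective.of_comp h

/-- The HNN extension. -/
abbrev E : Type := Hnn al_inj be_inj

theorem tf_prod {G H : Type} [Group G] [Group H] (hG : TorsionFree G) (hH : TorsionFree H) :
    TorsionFree (G × H) := fun g n hn h =>
  Prod.ext (hG g.1 n hn (congrArg Prod.fst h)) (hH g.2 n hn (congrArg Prod.snd h))

theorem tf_free (S : Type) : TorsionFree (FreeGroup S) := fun g n hn h => by
  have h1 : g ^ n = 1 ^ n := by rw [h, one_pow]
  exact pow_left_injective (Nat.pos_iff_ne_zero.1 hn) h1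

theorem tf_E : TorsionFree E :=
  H12.hnntf _ _ _ _ (tf_prod (torsionFree_TQ relU) (tf_free _))

/-! ### From `E` to `GU` -/

/-- The class of a word in `GU`. -/
abbrev cl : F2 →* GU := QuotientGroup.mk' (isol rel2)

theorem cl_rel {w : F2} (h : w ∈ rel2) : cl w = 1 :=
  (QuotientGroup.eq_one_iff w).2 (subset_isol _ h)

theorem gam_comm_x (n : ℕ) : Commute (cl (gam n)) (cl lx) := by
  have h := cl_rel (Or.inl ⟨n, rfl⟩ : gam n * lx * (gam n)⁻¹ * lx⁻¹ ∈ rel2)
  rw [map_mul, map_mul, map_mul, map_inv, map_inv, mul_inv_eq_one, mul_inv_eq_iff_eq_mul] at h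
  exact h

theorem gam_comm_y (n : ℕ) : Commute (cl (gam n)) (cl ly) := by
  have h := cl_rel (Or.inr (Or.inl ⟨n, rfl⟩) : gam n * ly * (gam n)⁻¹ * ly⁻¹ ∈ rel2)
  rw [map_mul, map_mul, map_mul, map_inv, map_inv, mul_inv_eq_one, mul_inv_eq_iff_eq_mul] at h
  exact h

/-- The homomorphism on the first factor. -/
def fU : UT →* GU :=
  TQ.lift (torsionFree_TQ rel2) relU (FreeGroup.lift fun p => cl (gamT p.1 p.2)) (by
    rintro _ ⟨T, i, j, k, h, rfl⟩
    rw [map_mul, map_mul, map_inv, FreeGroup.lift_apply_of, FreeGroup.lift_apply_of,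
      FreeGroup.lift_apply_of, ← map_inv, ← map_mul, ← map_mul]
    exact cl_rel (Or.inr (Or.inr ⟨T, i, j, k, h, rfl⟩)))

theorem fU_of (T : Tab) (i : ℕ) :
    fU (QuotientGroup.mk (FreeGroup.of (T, i))) = cl (gamT T i) := by
  show FreeGroup.lift (fun p : Tab × ℕ => cl (gamT p.1 p.2)) (FreeGroup.of (T, i)) = _
  rw [FreeGroup.lift_apply_of]

/-- The homomorphism on the second factor. -/
def fF : F2 →* GU := FreeGroup.lift ![cl lx, cl ly]

theorem fF_X : fF X = cl lx := by simp [fF, X]

theorem fF_Y : fF Y = cl ly := by simp [fF, Y]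

theorem fU_gs (n : ℕ) : fU (gs n) = cl (gam n) := by
  cases n with
  | zero =>
    show fU 1 = _
    rw [map_one]
    have : gam 0 = 1 := by
      simp [gam, lx]
    rw [this, map_one]
  | succ n =>
    obtain ⟨T, i, h⟩ : ∃ (T : Tab) (i : ℕ), Encodable.encode (T, i) = n :=
      ⟨(Denumerable.ofNat (Tab × ℕ) n).1, (Denumerable.ofNat (Tab × ℕ) n).2,
        Denumerable.encode_ofNat n⟩
    rw [← h, gs_enc, fU_of]
    rfl

theorem comm_UF (u : UT) (w : F2) : Commute (fU u) (fF w) := by
  obtain ⟨v, rfl⟩ := QuotientGroup.mk_surjective u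
  have h1 : ∀ (T : Tab) (i : ℕ) (w : F2), Commute (cl (gamT T i)) (fF w) := by
    intro T i w
    induction w using FreeGroup.induction_on with
    | C1 => rw [map_one]; exact Commute.one_right _
    | of j =>
      fin_cases j
      · show Commute _ (fF X)
        rw [fF_X]; exact gam_comm_x _
      · show Commute _ (fF Y)
        rw [fF_Y]; exact gam_comm_y _
    | inv_of j hj => rw [map_inv]; exact hj.inv_right
    | mul a b ha hb => rw [map_mul]; exact ha.mul_right hb
  induction v using FreeGroup.induction_on with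
  | C1 => rw [QuotientGroup.mk_one, map_one]; exact Commute.one_left _
  | of p => rw [show p = (p.1, p.2) from rfl, fU_of]; exact h1 _ _ _
  | inv_of p hp => rw [QuotientGroup.mk_inv, map_inv]; exact hp.inv_left
  | mul a b ha hb => rw [QuotientGroup.mk_mul, map_mul]; exact ha.mul_left hb

/-- The homomorphism on the base group. -/
def fB : UT × F2 →* GU := MonoidHom.noncommCoprod fU fF comm_UF

theorem fB_apply (u : UT) (w : F2) : fB (u, w) = fU u * fF w := rfl

theorem rel_gen (w : FreeGroup ℕ) : cl lt * fB (al w) = fB (be w) * cl lt := by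
  have h : (MulAut.conj (cl lt)).toMonoidHom.comp (fB.comp al) = fB.comp be := by
    refine FreeGroup.ext_hom _ _ fun n => ?_
    show cl lt * fB (al (FreeGroup.of n)) * (cl lt)⁻¹ = fB (be (FreeGroup.of n))
    rw [al_of, be_of, fB_apply, fB_apply, map_one, one_mul, cw_map, cw_map, fF_X, fF_Y, fU_gs,
      ← cw_map, ← cw_map, ← map_mul, ← map_inv, ← map_mul, ← map_mul]
    congr 1
    simp only [gam, cw]
    group
  have h1 := DFunLike.congr_fun h w
  change cl lt * fB (al w) * (cl lt)⁻¹ = fB (be w) at h1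
  rw [← h1]
  group

/-- The homomorphism to `GU`. -/
noncomputable def Phi : E →* GU := HNNExtension.lift fB (cl lt) (by
  rintro ⟨_, w, rfl⟩
  rw [pIso_apply al_inj be_inj w]
  exact rel_gen w)

/-! ### From `GU` to `E` -/

/-- The homomorphism on words. -/
noncomputable def ps : F2 →* E := FreeGroup.lift ![t, of (1, Y)]

theorem ps_lt : ps lt = t := by simp [ps, lt]

theorem ps_ly : ps ly = of (1, Y) := by simp [ps, ly]

theorem rel_E (n : ℕ) : (t : E) * of (1, cw X Y n) * t⁻¹ = of (gs n, cw Y X n) := by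
  have h := hnn_rel al_inj be_inj (FreeGroup.of n)
  rw [al_of, be_of] at h
  rw [h]
  group

theorem ps_lx : ps lx = of (1, X) := by
  have h := rel_E 0
  simp only [cw, pow_zero, one_mul, mul_one] at h
  show ps (lt * ly * lt⁻¹) = _
  rw [map_mul, map_mul, map_inv, ps_lt, ps_ly, h]
  rfl


/-- The embedding of the second factor. -/
noncomputable def iF : F2 →* E := (of : UT × F2 →* E).comp (MonoidHom.inr UT F2)

theorem iF_apply (w : F2) : iF w = of (1, w) := rfl

theorem ps_gam (n : ℕ) : ps (gam n) = of (gs n, 1) := by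
  have h : gam n = lt * cw lx ly n * lt⁻¹ * (cw ly lx n)⁻¹ := rfl
  rw [h, map_mul, map_mul, map_mul, map_inv, map_inv, cw_map, cw_map, ps_lt, ps_lx, ps_ly,
    ← iF_apply, ← iF_apply, ← cw_map, ← cw_map, iF_apply, iF_apply, rel_E, ← map_inv, ← map_mul]
  congr 1
  ext <;> simp

theorem ps_rel (w : F2) (hw : w ∈ rel2) : ps w = 1 := by
  rcases hw with ⟨n, rfl⟩ | ⟨n, rfl⟩ | ⟨T, i, j, k, h, rfl⟩
  · rw [map_mul, map_mul, map_mul, map_inv, map_inv, ps_gam, ps_lx, ← map_inv, ← map_inv,
      ← map_mul, ← map_mul, ← map_mul, ← map_one (of : UT × F2 →* E)]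
    congr 1
    ext <;> simp
  · rw [map_mul, map_mul, map_mul, map_inv, map_inv, ps_gam, ps_ly, ← map_inv, ← map_inv,
      ← map_mul, ← map_mul, ← map_mul, ← map_one (of : UT × F2 →* E)]
    congr 1
    ext <;> simp
  · rw [map_mul, map_mul, map_inv]
    unfold gamT
    rw [ps_gam, ps_gam, ps_gam, gs_enc, gs_enc, gs_enc, ← map_inv, ← map_mul, ← map_mul,
      ← map_one (of : UT × F2 →* E)]
    congr 1
    refine Prod.ext ?_ (by simp)
    show (QuotientGroup.mk (FreeGroup.of (T, i)) * QuotientGroup.mk (FreeGroup.of (T, j)) *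
      (QuotientGroup.mk (FreeGroup.of (T, k)))⁻¹ : UT) = 1
    rw [← QuotientGroup.mk_inv, ← QuotientGroup.mk_mul, ← QuotientGroup.mk_mul,
      QuotientGroup.eq_one_iff]
    exact subset_isol _ ⟨T, i, j, k, h, rfl⟩

/-- The homomorphism from `GU`. -/
noncomputable def Psi : GU →* E := TQ.lift tf_E rel2 ps ps_rel

theorem Psi_cl (w : F2) : Psi (cl w) = ps w := rfl

theorem Phi_t : Phi t = cl lt := HNNExtension.lift_t _ _ _

theorem Phi_of (p : UT × F2) : Phi (of p) = fB p := HNNExtension.lift_of _ _ _ _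

theorem Phi_Psi : Phi.comp Psi = MonoidHom.id GU := by
  refine QuotientGroup.monoidHom_ext _ ?_
  refine FreeGroup.ext_hom _ _ fun j => ?_
  fin_cases j
  · show Phi (ps lt) = cl lt
    rw [ps_lt, Phi_t]
  · show Phi (ps ly) = cl ly
    rw [ps_ly, Phi_of, fB_apply, map_one, one_mul, fF_Y]

theorem Psi_Phi : Psi.comp Phi = MonoidHom.id E := by
  refine HNNExtension.hom_ext ?_ ?_
  · have h1 : ∀ u : UT, Psi (fU u) = of (u, 1) := by
      have : Psi.comp fU = (of : UT × F2 →* E).comp (MonoidHom.inl UT F2) := by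
        refine QuotientGroup.monoidHom_ext _ ?_
        refine FreeGroup.ext_hom _ _ fun p => ?_
        obtain ⟨T, i⟩ := p
        show Psi (fU (QuotientGroup.mk (FreeGroup.of (T, i)))) =
          of (QuotientGroup.mk (FreeGroup.of (T, i)), 1)
        rw [fU_of, Psi_cl, gamT, ps_gam, gs_enc]
      exact fun u => DFunLike.congr_fun this u
    have h2 : ∀ w : F2, Psi (fF w) = of (1, w) := by
      have : Psi.comp fF = iF := by
        refine FreeGroup.ext_hom _ _ fun j => ?_
        fin_cases j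
        · show Psi (fF X) = of (1, X)
          rw [fF_X, Psi_cl, ps_lx]
        · show Psi (fF Y) = of (1, Y)
          rw [fF_Y, Psi_cl, ps_ly]
      exact fun w => DFunLike.congr_fun this w
    refine MonoidHom.ext fun p => ?_
    obtain ⟨u, w⟩ := p
    show Psi (Phi (of (u, w))) = of (u, w)
    rw [Phi_of, fB_apply, map_mul, h1, h2, ← map_mul]
    congr 1
    ext <;> simp
  · show Psi (Phi t) = t
    rw [Phi_t, Psi_cl, ps_lt]

/-- Module GEQ. -/
theorem geq : GeqStatement :=
  ⟨al.range, be.range, pIso al_inj be_inj, ⟨(MonoidHom.ofInjective al_inj).symm⟩,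
    ⟨MonoidHom.toMulEquiv Phi Psi Psi_Phi Phi_Psi⟩⟩

end Pool.Agent.NegK.Hig.H64G

namespace Pool.Agent.NegK.Hig.H64

open Pool.Agent.NegK.Hig

/-- Module GEQ. -/
theorem geq : GeqStatement := H64G.geq

end Pool.Agent.NegK.Hig.H64
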