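import Pool.Agent.Lib.MP_28303a_al.HIG.Iface

set_option autoImplicit false

/-! # The Higman rope trick -/

namespace Pool.Agent.NegK.Hig.H64

open HNNExtension Pool.Agent.NegK Pool.Agent.NegK.Hig

theorem pIso_apply {C K : Type} [Group C] [Group K] {α β : C →* K}
    (hα : Function.Injective α) (hβ : Function.Injective β) (c : C) :
    ((pIso hα hβ ⟨α c, ⟨c, rfl⟩⟩ : β.range) : K) = β c := by
  have h1 : (MonoidHom.ofInjective hα) c = ⟨α c, ⟨c, rfl⟩⟩ := rfl
  unfold pIso
  rw [MulEquiv.trans_apply, ← h1, MulEquiv.symm_apply_apply]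
  rfl

/-- The relation of the last extension. -/
theorem hnn_rel {C K : Type} [Group C] [Group K] {α β : C →* K}
    (hα : Function.Injective α) (hβ : Function.Injective β) (c : C) :
    (t : Hnn hα hβ) * of (α c) = of (β c) * t := by
  have h := t_mul_of (φ := pIso hα hβ) ⟨α c, ⟨c, rfl⟩⟩
  rw [pIso_apply hα hβ c] at h
  exact h

/-- Two homomorphisms commute if they commute on generators. -/
theorem comm_of_gen {G Q : Type} [Group G] [Group Q] {n : ℕ} (φ : FreeGroup (Fin n) →* G)
    (hφ : Function.Surjective φ) (a : G →* Q) (b : F2 →* Q)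
    (h : ∀ k j, a (φ (FreeGroup.of k)) * b (FreeGroup.of j) =
      b (FreeGroup.of j) * a (φ (FreeGroup.of k))) (g : G) (x : F2) : Commute (a g) (b x) := by
  obtain ⟨w, rfl⟩ := hφ g
  have h1 : ∀ (j : Fin 2) (w : FreeGroup (Fin n)), Commute (a (φ w)) (b (FreeGroup.of j)) := by
    intro j w
    induction w using FreeGroup.induction_on with
    | C1 => rw [map_one, map_one]; exact Commute.one_left _
    | of k => exact h k j
    | inv_of k hk => rw [map_inv, map_inv]; exact hk.inv_left
    | mul u v hu hv => rw [map_mul, map_mul]; exact hu.mul_left hv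
  induction x using FreeGroup.induction_on with
  | C1 => rw [map_one]; exact Commute.one_right _
  | of j => exact h1 j w
  | inv_of j hj => rw [map_inv]; exact hj.inv_right
  | mul u v hu hv => rw [map_mul]; exact hu.mul_right hv

/-- Module ROPE. -/
theorem rope : RopeStatement := by
  intro G _ i s N _ hG hN ψ hψ1 hψ2
  obtain ⟨n, φ, hφ, -⟩ := hG.out
  let α := incA (dbl i s) (F2 ⧸ N)
  let β := incB (dbl i s) ψ
  have hα : Function.Injective α := incA_inj _ _
  have hβ : Function.Injective β := incB_inj _ _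
  let P : Type := Monoid.Coprod G (FreeGroup (Option (Fin 2)))
  let y : P := Monoid.Coprod.inr (FreeGroup.of none)
  let c : Fin 2 → P := fun j => Monoid.Coprod.inr (FreeGroup.of (some j))
  let k : G →* P := Monoid.Coprod.inl
  let b2 : F2 →* (F2 ⧸ N) := QuotientGroup.mk' N
  let f : P →* Hnn hα hβ := Monoid.Coprod.lift
    ((of : G × (F2 ⧸ N) →* Hnn hα hβ).comp (MonoidHom.inl G (F2 ⧸ N)))
    (FreeGroup.lift fun o : Option (Fin 2) =>
      o.elim (t : Hnn hα hβ) fun j => (of : G × (F2 ⧸ N) →* Hnn hα hβ) (1, b2 (FreeGroup.of j)))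
  have fk : ∀ g : G, f (k g) = of (g, (1 : F2 ⧸ N)) := fun g =>
    Monoid.Coprod.lift_apply_inl _ _ _
  have fy : f y = t := (Monoid.Coprod.lift_apply_inr _ _ _).trans (FreeGroup.lift_apply_of)
  have fc : ∀ j, f (c j) = of ((1 : G), b2 (FreeGroup.of j)) := fun j =>
    (Monoid.Coprod.lift_apply_inr _ _ _).trans (FreeGroup.lift_apply_of)
  let R1 : Fin n × Fin 2 → P := fun p =>
    k (φ (FreeGroup.of p.1)) * c p.2 * (k (φ (FreeGroup.of p.1)))⁻¹ * (c p.2)⁻¹
  let R2 : Fin 2 → P := fun j =>
    y * k (i (FreeGroup.of j)) * y⁻¹ * (k (i (FreeGroup.of j)) * c j)⁻¹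
  let R3 : Fin 2 → P := fun j =>
    y * k (s⁻¹ * i (FreeGroup.of j) * s) * y⁻¹ * (k (s⁻¹ * i (FreeGroup.of j) * s))⁻¹
  let R : Set P := Set.range R1 ∪ Set.range R2 ∪ Set.range R3
  have hRfin : R.Finite := ((Set.finite_range _).union (Set.finite_range _)).union
    (Set.finite_range _)
  have hc2 : ∀ x : F2, ∃ p : P, f p = of ((1 : G), b2 x) := by
    intro x
    induction x using FreeGroup.induction_on with
    | C1 => exact ⟨1, by rw [map_one, map_one]; exact (map_one _).symm⟩
    | of j => exact ⟨c j, fc j⟩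
    | inv_of j hj =>
      obtain ⟨p, hp⟩ := hj
      refine ⟨p⁻¹, ?_⟩
      rw [map_inv, hp, map_inv, ← map_inv]
      congr 1
      ext <;> simp
    | mul u v hu hv =>
      obtain ⟨p, hp⟩ := hu
      obtain ⟨q, hq⟩ := hv
      refine ⟨p * q, ?_⟩
      rw [map_mul, hp, hq, map_mul, ← map_mul]
      congr 1
      ext <;> simp
  have hsurj : Function.Surjective f := by
    intro x
    induction x using HNNExtension.induction_on with
    | of g =>
      obtain ⟨g, z⟩ := g
      obtain ⟨x, rfl⟩ := QuotientGroup.mk'_surjective N z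
      obtain ⟨p, hp⟩ := hc2 x
      refine ⟨k g * p, ?_⟩
      rw [map_mul, fk, hp, ← map_mul]
      congr 1
      ext <;> simp [b2]
    | t => exact ⟨y, fy⟩
    | mul x y hx hy =>
      obtain ⟨a, rfl⟩ := hx
      obtain ⟨b, rfl⟩ := hy
      exact ⟨a * b, map_mul f a b⟩
    | inv x hx =>
      obtain ⟨a, rfl⟩ := hx
      exact ⟨a⁻¹, map_inv f a⟩
  have hb2 : ∀ x : F2, b2 x = (QuotientGroup.mk x : F2 ⧸ N) := fun _ => rfl
  refine Group.IsFinitelyPresented.of_surjective f hsurj ⟨R, hRfin, ?_⟩
  refine le_antisymm ?_ ?_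
  · refine Subgroup.normalClosure_le_normal ?_
    rintro _ ((⟨p, rfl⟩ | ⟨j, rfl⟩) | ⟨j, rfl⟩)
    · rw [SetLike.mem_coe, MonoidHom.mem_ker]
      simp only [R1]
      rw [map_mul, map_mul, map_mul, map_inv, map_inv, fk, fc]
      have h1 : (of (φ (FreeGroup.of p.1), (1 : F2 ⧸ N)) : Hnn hα hβ) *
          of ((1 : G), b2 (FreeGroup.of p.2)) = of ((1 : G), b2 (FreeGroup.of p.2)) *
          of (φ (FreeGroup.of p.1), (1 : F2 ⧸ N)) := by
        rw [← map_mul, ← map_mul]
        congr 1
        ext <;> simp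
      rw [h1]
      group
    · rw [SetLike.mem_coe, MonoidHom.mem_ker]
      simp only [R2]
      rw [map_mul, map_mul, map_mul, map_inv, map_inv, map_mul, fy, fk, fc]
      have h1 := hnn_rel hα hβ ⟨i (FreeGroup.of j), dbl_left _ _ _⟩
      have h2 : α ⟨i (FreeGroup.of j), dbl_left _ _ _⟩ = (i (FreeGroup.of j), 1) := rfl
      have h3 : β ⟨i (FreeGroup.of j), dbl_left _ _ _⟩ =
          (i (FreeGroup.of j), (1 : F2 ⧸ N)) * ((1 : G), b2 (FreeGroup.of j)) := by
        refine Prod.ext ?_ ?_
        · show i (FreeGroup.of j) = i (FreeGroup.of j) * 1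
          rw [mul_one]
        · show ψ _ = 1 * b2 (FreeGroup.of j)
          rw [hψ1, one_mul]
          rfl
      rw [h2, h3, map_mul] at h1
      rw [h1]
      group
    · rw [SetLike.mem_coe, MonoidHom.mem_ker]
      simp only [R3]
      rw [map_mul, map_mul, map_mul, map_inv, map_inv, fy, fk]
      have h1 := hnn_rel hα hβ ⟨s⁻¹ * i (FreeGroup.of j) * s, dbl_right _ _ _⟩
      have h2 : α ⟨s⁻¹ * i (FreeGroup.of j) * s, dbl_right _ _ _⟩ =
        (s⁻¹ * i (FreeGroup.of j) * s, 1) := rfl
      have h3 : β ⟨s⁻¹ * i (FreeGroup.of j) * s, dbl_right _ _ _⟩ =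
          (s⁻¹ * i (FreeGroup.of j) * s, (1 : F2 ⧸ N)) := by
        refine Prod.ext rfl ?_
        show ψ _ = 1
        exact hψ2 _
      rw [h2, h3] at h1
      rw [h1]
      group
  · set M := Subgroup.normalClosure R with hM
    let q : P →* P ⧸ M := QuotientGroup.mk' M
    have hq : ∀ x ∈ R, q x = 1 := fun x hx =>
      (QuotientGroup.eq_one_iff x).2 (Subgroup.subset_normalClosure hx)
    let a : G →* P ⧸ M := q.comp k
    let b : F2 →* P ⧸ M := FreeGroup.lift fun j => q (c j)
    have hb : ∀ j, b (FreeGroup.of j) = q (c j) := fun j => by simp [b]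
    have hab : ∀ g x, Commute (a g) (b x) := by
      refine comm_of_gen φ hφ a b fun l j => ?_
      have h1 := hq (R1 (l, j)) (Or.inl (Or.inl ⟨(l, j), rfl⟩))
      simp only [R1] at h1
      rw [map_mul, map_mul, map_mul, map_inv, map_inv, mul_inv_eq_one, mul_inv_eq_iff_eq_mul] at h1
      rw [hb]
      exact h1
    let τ := q y
    -- the two families of relations
    let ab : F2 →* P ⧸ M :=
      { toFun := fun x => a (i x) * b x
        map_one' := by rw [map_one, map_one, map_one, mul_one]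
        map_mul' := fun u v => by
          rw [map_mul, map_mul, map_mul]
          exact (hab _ _).mul_mul_mul_comm _ _ }
    have e1 : (MulAut.conj τ).toMonoidHom.comp (a.comp i) = ab := by
      refine FreeGroup.ext_hom _ _ fun j => ?_
      show τ * a (i (FreeGroup.of j)) * τ⁻¹ = a (i (FreeGroup.of j)) * b (FreeGroup.of j)
      have h1 := hq (R2 j) (Or.inl (Or.inr ⟨j, rfl⟩))
      simp only [R2] at h1
      rw [map_mul, map_inv, mul_inv_eq_one, map_mul, map_mul, map_inv, map_mul] at h1
      rw [hb]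
      exact h1
    have e2 : (MulAut.conj τ).toMonoidHom.comp (a.comp ((MulAut.conj s⁻¹).toMonoidHom.comp i)) =
        a.comp ((MulAut.conj s⁻¹).toMonoidHom.comp i) := by
      refine FreeGroup.ext_hom _ _ fun j => ?_
      show τ * a (s⁻¹ * i (FreeGroup.of j) * s⁻¹⁻¹) * τ⁻¹ = a (s⁻¹ * i (FreeGroup.of j) * s⁻¹⁻¹)
      rw [inv_inv]
      have h1 := hq (R3 j) (Or.inr ⟨j, rfl⟩)
      simp only [R3] at h1
      rw [map_mul, map_inv, mul_inv_eq_one, map_mul, map_mul, map_inv] at h1
      exact h1
    have e1' : ∀ x, τ * a (i x) * τ⁻¹ = a (i x) * b x := fun x => DFunLike.congr_fun e1 x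
    have e2' : ∀ x, τ * a (s⁻¹ * i x * s) * τ⁻¹ = a (s⁻¹ * i x * s) := fun x => by
      have := DFunLike.congr_fun e2 x
      change τ * a (s⁻¹ * i x * s⁻¹⁻¹) * τ⁻¹ = a (s⁻¹ * i x * s⁻¹⁻¹) at this
      rw [inv_inv] at this
      exact this
    have hbN : ∀ x ∈ N, b x = 1 := by
      intro x hx
      have h1 := e1' x
      have h2 := e2' x
      rw [hN x hx, h1] at h2
      exact mul_eq_left.1 h2
    let bb : (F2 ⧸ N) →* P ⧸ M := QuotientGroup.lift N b hbN
    have hbb : ∀ x : F2, bb (b2 x) = b x := fun x => rfl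
    have habb : ∀ g z, Commute (a g) (bb z) := by
      intro g z
      obtain ⟨x, rfl⟩ := QuotientGroup.mk'_surjective N z
      exact hab g x
    let ff : G × (F2 ⧸ N) →* P ⧸ M := MonoidHom.noncommCoprod a bb habb
    have hff : ∀ g z, ff (g, z) = a g * bb z := fun g z => rfl
    let ab' : dbl i s →* P ⧸ M :=
      { toFun := fun x => a x * bb (ψ x)
        map_one' := by rw [map_one, map_one, OneMemClass.coe_one, map_one, mul_one]
        map_mul' := fun u v => by
          rw [map_mul, map_mul, Subgroup.coe_mul, map_mul]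
          exact (habb _ _).mul_mul_mul_comm _ _ }
    have e3 : (MulAut.conj τ).toMonoidHom.comp (a.comp (dbl i s).subtype) = ab' := by
      refine MonoidHom.eq_of_eqOn_dense (s := {x : dbl i s | (x : G) ∈ Set.range i ∪
        Set.range fun f => s⁻¹ * i f * s}) ?_ ?_
      · exact Subgroup.closure_closure_coe_preimage
      · rintro ⟨x, hx⟩ (⟨w, hw⟩ | ⟨w, hw⟩)
        · change i w = x at hw
          subst hw
          show τ * a (i w) * τ⁻¹ = a (i w) * bb (ψ ⟨i w, hx⟩)
          rw [hψ1 w, e1']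
          rfl
        · change s⁻¹ * i w * s = x at hw
          subst hw
          show τ * a (s⁻¹ * i w * s) * τ⁻¹ = a (s⁻¹ * i w * s) * bb (ψ ⟨s⁻¹ * i w * s, hx⟩)
          rw [hψ2 w, e2', map_one, mul_one]
    let g : Hnn hα hβ →* P ⧸ M := HNNExtension.lift ff τ (by
      rintro ⟨_, x, rfl⟩
      rw [pIso_apply hα hβ x]
      show τ * ff ((x : G), 1) = ff ((x : G), ψ x) * τ
      rw [hff, hff, map_one, mul_one]
      have := DFunLike.congr_fun e3 x
      change τ * a (x : G) * τ⁻¹ = a (x : G) * bb (ψ x) at this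
      rw [← this]
      group)
    have hgf : g.comp f = q := by
      refine Monoid.Coprod.hom_ext ?_ ?_
      · ext x
        show g (f (k x)) = q (k x)
        rw [fk]
        show g (of (x, 1)) = a x
        rw [HNNExtension.lift_of, hff, map_one, mul_one]
      · refine FreeGroup.ext_hom _ _ fun o => ?_
        cases o with
        | none =>
          show g (f y) = q y
          rw [fy, HNNExtension.lift_t]
        | some j =>
          show g (f (c j)) = q (c j)
          rw [fc, HNNExtension.lift_of, hff, map_one, one_mul, hbb, hb]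
    intro x hx
    rw [MonoidHom.mem_ker] at hx
    have h1 : q x = 1 := by
      rw [← hgf, MonoidHom.comp_apply, hx, map_one]
    exact (QuotientGroup.eq_one_iff x).1 h1

end Pool.Agent.NegK.Hig.H64
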